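import Mathlib

/-!
# Greedy covering of a circle by good arcs (helper179, for the illumination of 3-dimensional bodies)

If subarcs of good arcs are good, good arcs can be prolonged at both ends and points are good, then
either `N` consecutive bad closed arcs tile the circle (starting at the given point), or `N` good arcs do.
-/

set_option autoImplicit false

namespace Pool.Agent.H179.HW

/-- `k` consecutive good arcs lead from `s` to `E` -/
def Ch (Good : ℝ → ℝ → Prop) (E : ℝ) : ℕ → ℝ → Prop
  | 0, s => s = E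
  | k + 1, s => ∃ u, s ≤ u ∧ Good s u ∧ Ch Good E k u

theorem Ch.fn {Good : ℝ → ℝ → Prop} {E : ℝ} : ∀ {k : ℕ} {s : ℝ}, Ch Good E k s →
    ∃ t : ℕ → ℝ, t 0 = s ∧ t k = E ∧ ∀ i < k, t i ≤ t (i + 1) ∧ Good (t i) (t (i + 1))
  | 0, s, h => ⟨fun _ => s, rfl, h, fun i hi => absurd hi (Nat.not_lt_zero i)⟩
  | k + 1, s, h => by
    obtain ⟨u, hsu, hg, hc⟩ := h
    obtain ⟨t, ht0, htk, ht⟩ := hc.fn
    refine ⟨fun i => Nat.casesOn i s t, rfl, htk, ?_⟩
    intro i hi
    cases i with
    | zero => exact ⟨by simpa [ht0] using hsu, by simpa [ht0] using hg⟩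
    | succ i => exact ht i (by omega)

theorem Ch.pad {Good : ℝ → ℝ → Prop} {E : ℝ} (pt : ∀ s, Good s s) : ∀ {k : ℕ} {s : ℝ},
    Ch Good E k s → Ch Good E (k + 1) s
  | 0, s, h => ⟨s, le_rfl, pt s, h⟩
  | k + 1, s, h => by
    obtain ⟨u, hsu, hg, hc⟩ := h
    exact ⟨u, hsu, hg, hc.pad pt⟩

theorem Ch.pad' {Good : ℝ → ℝ → Prop} {E : ℝ} (pt : ∀ s, Good s s) {k l : ℕ} (hkl : k ≤ l) {s : ℝ}
    (h : Ch Good E k s) : Ch Good E l s := by
  induction hkl with
  | refl => exact h
  | step _ ih => exact ih.pad pt

theorem greedy (L : ℝ) (hL : 0 < L) (Good : ℝ → ℝ → Prop)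
    (mono : ∀ s t s' t', s ≤ s' → s' ≤ t' → t' ≤ t → Good s t → Good s' t')
    (opn : ∀ s t, s ≤ t → Good s t → ∃ δ : ℝ, 0 < δ ∧ Good (s - δ) (t + δ))
    (pt : ∀ s, Good s s) (N : ℕ) (hN : 1 ≤ N) (t₀ : ℝ)
    (hno : ¬ ∃ t : ℕ → ℝ, StrictMono t ∧ t 0 = t₀ ∧ (∀ i, t (i + N) = t i + L) ∧
      ∀ i, ¬ Good (t i) (t (i + 1)))
    (per : ∀ s t, Good s t → Good (s - L) (t - L)) :
    ∃ t : ℕ → ℝ, t 0 = t₀ ∧ t N = t₀ + L ∧ ∀ i < N, t i ≤ t (i + 1) ∧ Good (t i) (t (i + 1)) := by
  classical
  set E := t₀ + L with hE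
  -- the greedy step
  have hstep : ∀ s, s ≤ E → ¬ Good s E → ∃ u, s < u ∧ u ≤ E ∧ ¬ Good s u ∧
      ∀ v, s ≤ v → v < u → Good s v := by
    intro s hs hb
    set T := {t : ℝ | s ≤ t ∧ t ≤ E ∧ Good s t} with hT
    have hsT : s ∈ T := ⟨le_rfl, hs, pt s⟩
    have hbd : BddAbove T := ⟨E, fun t ht => ht.2.1⟩
    have h1 : s ≤ sSup T := le_csSup hbd hsT
    have h2 : sSup T ≤ E := csSup_le ⟨s, hsT⟩ fun t ht => ht.2.1
    have h3 : ∀ v, s ≤ v → v < sSup T → Good s v := by
      intro v hv hvT
      obtain ⟨t, ht, hvt⟩ := exists_lt_of_lt_csSup ⟨s, hsT⟩ hvT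
      exact mono s t s v le_rfl hv hvt.le ht.2.2
    have h4 : ¬ Good s (sSup T) := by
      intro hg
      have hlt : sSup T < E := lt_of_le_of_ne h2 (fun h => hb (h ▸ hg))
      obtain ⟨δ, hδ, hg'⟩ := opn s (sSup T) h1 hg
      have h5 : min (sSup T + δ) E ∈ T := by
        refine ⟨le_min (by linarith) hs, min_le_right _ _, ?_⟩
        exact mono (s - δ) (sSup T + δ) s _ (by linarith) (le_min (by linarith) hs)
          (min_le_left _ _) hg'
      have h6 := le_csSup hbd h5
      have h7 : sSup T < min (sSup T + δ) E := lt_min (by linarith) hlt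
      linarith
    refine ⟨sSup T, lt_of_le_of_ne h1 (fun h => h4 (h ▸ pt s)), h2, h4, h3⟩
  choose! f hf1 hf2 hf3 hf4 using hstep
  let a : ℕ → ℝ := fun n => f^[n] t₀
  have ha : ∀ n, a (n + 1) = f (a n) := fun n => Function.iterate_succ_apply' f n t₀
  by_cases hcase : ∃ m, m < N ∧ a m ≤ E ∧ Good (a m) E
  · -- good arcs
    have hex := hcase
    let m := Nat.find hcase
    obtain ⟨hmN, hmE, hmg⟩ := Nat.find_spec hcase
    have hle : ∀ j, j ≤ m → a j ≤ E ∧ (j < m → ¬ Good (a j) E) := by
      intro j
      induction j with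
      | zero =>
        intro _
        have h0 : a 0 ≤ E := by
          change t₀ ≤ E
          linarith
        refine ⟨h0, fun hj hg => ?_⟩
        exact Nat.find_min hcase hj ⟨by omega, h0, hg⟩
      | succ j ih =>
        intro hj
        obtain ⟨i1, i2⟩ := ih (by omega)
        have h1 : a (j + 1) ≤ E := by
          rw [ha]
          exact hf2 _ i1 (i2 (by omega))
        exact ⟨h1, fun hj' hg => Nat.find_min hcase hj' ⟨by omega, h1, hg⟩⟩
    have hP : ∀ k, k ≤ m → ∃ δ : ℝ, 0 < δ ∧ ∀ s, a (m - k) - δ ≤ s → s ≤ a (m - k) →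
        Ch Good E (k + 1) s := by
      intro k
      induction k with
      | zero =>
        intro _
        obtain ⟨δ, hδ, hg⟩ := opn _ _ hmE hmg
        refine ⟨δ, hδ, fun s hs1 hs2 => ⟨E, ?_, ?_, rfl⟩⟩
        · exact le_trans hs2 hmE
        · exact mono _ _ _ _ hs1 (le_trans hs2 hmE) (by linarith) hg
      | succ k ih =>
        intro hk
        obtain ⟨δ, hδ, hC⟩ := ih (by omega)
        have hmk : m - k = (m - (k + 1)) + 1 := by omega
        obtain ⟨i1, i2⟩ := hle (m - (k + 1)) (by omega)
        have i3 := i2 (by omega)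
        rw [hmk, ha] at hC
        set x := a (m - (k + 1)) with hx
        have j1 := hf1 x i1 i3
        have j4 := hf4 x i1 i3
        set s := max x (f x - δ) with hs
        have s1 : x ≤ s := le_max_left _ _
        have s2 : s < f x := max_lt j1 (by linarith)
        have hCs := hC s (le_max_right _ _) s2.le
        obtain ⟨δ', hδ', hg⟩ := opn x s s1 (j4 s s1 s2)
        refine ⟨δ', hδ', fun s' hs1 hs2 => ⟨s, le_trans hs2 s1, ?_, hCs⟩⟩
        exact mono _ _ _ _ hs1 (le_trans hs2 s1) (by linarith) hg
    obtain ⟨δ, hδ, hC⟩ := hP m le_rfl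
    have h0 : Ch Good E (m + 1) t₀ := by
      refine hC t₀ ?_ ?_
      · rw [Nat.sub_self]
        change t₀ - δ ≤ t₀
        linarith
      · rw [Nat.sub_self]
        exact le_rfl
    exact (h0.pad' pt (by omega : m + 1 ≤ N)).fn
  · -- a chain of bad arcs
    exfalso
    push Not at hcase
    apply hno
    have hb : ∀ j, j < N → a j < E ∧ ¬ Good (a j) E := by
      intro j
      induction j with
      | zero =>
        intro h0
        have h1 : a 0 < E := by
          change t₀ < E
          linarith
        exact ⟨h1, hcase 0 h0 h1.le⟩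
      | succ j ih =>
        intro hj
        obtain ⟨i1, i2⟩ := ih (by omega)
        have h1 : a (j + 1) ≤ E := by
          rw [ha]
          exact hf2 _ i1.le i2
        have h2 := hcase (j + 1) hj h1
        exact ⟨lt_of_le_of_ne h1 (fun h => h2 (h ▸ pt _)), h2⟩
    have hlt : ∀ j, j < N → a j < a (j + 1) := fun j hj => by
      rw [ha]
      exact hf1 _ (hb j hj).1.le (hb j hj).2
    have hbad : ∀ j, j < N → ¬ Good (a j) (a (j + 1)) := fun j hj => by
      rw [ha]
      exact hf3 _ (hb j hj).1.le (hb j hj).2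
    have hN0 : 0 < N := by omega
    let t : ℕ → ℝ := fun i => a (i % N) + (i / N : ℕ) * L
    have key : ∀ i, t i < t (i + 1) ∧ ¬ Good (t i) (t (i + 1)) := by
      intro i
      have hr : i % N < N := Nat.mod_lt i hN0
      have perN : ∀ (n : ℕ) (s u : ℝ), Good (s + n * L) (u + n * L) → Good s u := by
        intro n
        induction n with
        | zero => intro s u h; simpa using h
        | succ n ih =>
          intro s u h
          apply ih
          have := per _ _ h
          push_cast at this
          convert this using 1 <;> ring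
      rcases Nat.lt_or_ge (i % N + 1) N with h | h
      · have e1 : (i + 1) % N = i % N + 1 := by
          rw [Nat.add_mod, Nat.mod_eq_of_lt (show 1 < N by omega)]
          exact Nat.mod_eq_of_lt h
        have e2 : (i + 1) / N = i / N := by
          have d1 := Nat.div_add_mod i N
          have d2 := Nat.div_add_mod (i + 1) N
          rw [e1] at d2
          have : N * ((i + 1) / N) = N * (i / N) := by omega
          exact Nat.eq_of_mul_eq_mul_left hN0 this
        refine ⟨?_, fun hg => ?_⟩
        · simp only [t, e1, e2]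
          linarith [hlt (i % N) hr]
        · simp only [t, e1, e2] at hg
          exact hbad _ hr (perN _ _ _ hg)
      · have e0 : i % N + 1 = N := by omega
        have e1 : (i + 1) % N = 0 := by
          rw [Nat.add_mod]
          rcases Nat.lt_or_ge 1 N with h1 | h1
          · rw [Nat.mod_eq_of_lt h1, e0, Nat.mod_self]
          · have : N = 1 := by omega
            subst this
            simp [Nat.mod_one]
        have e2 : (i + 1) / N = i / N + 1 := by
          have d1 := Nat.div_add_mod i N
          have d2 := Nat.div_add_mod (i + 1) N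
          rw [e1] at d2
          have : N * ((i + 1) / N) = N * (i / N + 1) := by rw [mul_add, mul_one]; omega
          exact Nat.eq_of_mul_eq_mul_left hN0 this
        have e3 : t (i + 1) = E + (i / N : ℕ) * L := by
          simp only [t, e1, e2]
          change t₀ + _ = _
          rw [hE]
          push_cast
          ring
        refine ⟨?_, fun hg => ?_⟩
        · rw [e3]
          simp only [t]
          linarith [(hb (i % N) hr).1]
        · rw [e3] at hg
          simp only [t] at hg
          exact (hb _ hr).2 (perN _ _ _ hg)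
    refine ⟨t, strictMono_nat_of_lt_succ fun i => (key i).1, ?_, ?_, fun i => (key i).2⟩
    · simp only [t, Nat.zero_mod, Nat.zero_div]
      change t₀ + _ = _
      simp
    · intro i
      simp only [t, Nat.add_mod_right, Nat.add_div_right _ hN0]
      push_cast
      ring

end Pool.Agent.H179.HW
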