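import Pool.Agent.H165.HW.Defs
import Pool.Agent.H289.HT.TC
import Pool.Agent.H271.HT.Par
import Pool.Agent.H179.HW.Greedy

/-!
# Reduction (helper179): `N` good arcs and the two vertical directions light the body

The basic facts on the shadow (by helper824), the parametrisation of its boundary (by helper271), goodness
is open (by helper348) and points are good (by helper387) are adapted from the project HT.
-/

set_option autoImplicit false

open Topology

namespace Pool.Agent.H179.HW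

open Pool.Agent.H332.HT (V2 V3 det P IP T C Full Good Bi)
open Pool.Agent.H165.HW

theorem image_int (K : Set V3) : ∀ x ∈ interior K, x.1 ∈ IP K := by
  intro x hx
  have h := (isOpenMap_fst (X := V2) (Y := ℝ)).image_interior_subset K
  exact h ⟨x, hx, rfl⟩

theorem cvxP {lam : ℝ} {K : Set V3} (hK : GB lam K) : Convex ℝ (P K) :=
  hK.cvx.linear_image (LinearMap.fst ℝ V2 ℝ)

theorem zeroIP {lam : ℝ} {K : Set V3} (hK : GB lam K) : (0 : V2) ∈ IP K := image_int K 0 hK.int0

theorem fib {lam : ℝ} {K : Set V3} (hK : GB lam K) (p : V2) (hp : p ∈ IP K) :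
    ∃ z : ℝ, ((p, z) : V3) ∈ interior K := by
  -- a slightly larger multiple
  have hcont : Continuous (fun s : ℝ => s • p) := continuous_id.smul continuous_const
  have hopen : IsOpen ((fun s : ℝ => s • p) ⁻¹' (IP K)) := isOpen_interior.preimage hcont
  have hmem : (1 : ℝ) ∈ (fun s : ℝ => s • p) ⁻¹' (IP K) := by
    show (1 : ℝ) • p ∈ IP K
    rwa [one_smul]
  obtain ⟨e, he, hball⟩ := Metric.isOpen_iff.mp hopen 1 hmem
  have h1 : (1 + e / 2) • p ∈ IP K := by
    apply hball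
    rw [Metric.mem_ball, Real.dist_eq]
    rw [show (1 + e / 2 - 1 : ℝ) = e / 2 by ring, abs_of_pos (by positivity)]
    linarith
  obtain ⟨⟨p', z'⟩, hx, hpp⟩ := interior_subset h1
  have hpp' : p' = (1 + e / 2) • p := hpp
  have hpos : (0 : ℝ) < 1 + e / 2 := by positivity
  refine ⟨z' / (1 + e / 2), ?_⟩
  have h2 := hK.cvx.combo_interior_self_mem_interior hK.int0 hx
    (a := (e / 2) / (1 + e / 2)) (b := 1 / (1 + e / 2)) (by positivity) (by positivity)
    (by field_simp; ring)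
  have h3 : ((e / 2) / (1 + e / 2)) • (0 : V3) + (1 / (1 + e / 2)) • ((p', z') : V3) =
      (p, z' / (1 + e / 2)) := by
    rw [smul_zero, zero_add, Prod.smul_mk, hpp', smul_smul]
    rw [show 1 / (1 + e / 2) * (1 + e / 2) = (1 : ℝ) by field_simp, one_smul, smul_eq_mul]
    congr 1
    ring
  rwa [h3] at h2

theorem comb (a b : ℝ) (p : V2) (z w : ℝ) (h : a + b = 1) :
    a • ((p, z) : V3) + b • ((p, w) : V3) = (p, a * z + b * w) := by
  apply Prod.ext
  · show a • p + b • p = p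
    rw [← add_smul, h, one_smul]
  · rfl

theorem intK {lam : ℝ} {K : Set V3} (hK : GB lam K) (p : V2) (z₁ z z₂ : ℝ) (hp : p ∈ IP K)
    (h1 : ((p, z₁) : V3) ∈ K) (h2 : ((p, z₂) : V3) ∈ K) (hz1 : z₁ < z) (hz2 : z < z₂) :
    ((p, z) : V3) ∈ interior K := by
  obtain ⟨z₀, hz₀⟩ := fib hK p hp
  rcases le_or_gt z z₀ with hle | hlt
  · have hd : 0 < z₀ - z₁ := by linarith
    have e1 : (z - z₁) / (z₀ - z₁) + (z₀ - z) / (z₀ - z₁) = 1 := by field_simp; ring
    have h3 := hK.cvx.combo_interior_self_mem_interior hz₀ h1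
      (a := (z - z₁) / (z₀ - z₁)) (b := (z₀ - z) / (z₀ - z₁)) (div_pos (by linarith) hd)
      (div_nonneg (by linarith) hd.le) e1
    rw [comb _ _ _ _ _ e1] at h3
    have e2 : (z - z₁) / (z₀ - z₁) * z₀ + (z₀ - z) / (z₀ - z₁) * z₁ = z := by
      field_simp
      ring
    rwa [e2] at h3
  · have hd : 0 < z₂ - z₀ := by linarith
    have e1 : (z₂ - z) / (z₂ - z₀) + (z - z₀) / (z₂ - z₀) = 1 := by field_simp; ring
    have h3 := hK.cvx.combo_interior_self_mem_interior hz₀ h2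
      (a := (z₂ - z) / (z₂ - z₀)) (b := (z - z₀) / (z₂ - z₀)) (div_pos (by linarith) hd)
      (div_nonneg (by linarith) hd.le) e1
    rw [comb _ _ _ _ _ e1] at h3
    have e2 : (z₂ - z) / (z₂ - z₀) * z₀ + (z - z₀) / (z₂ - z₀) * z₂ = z := by
      field_simp
      ring
    rwa [e2] at h3

/-- the unit vector -/
noncomputable abbrev e (t : ℝ) : V2 := Pool.Agent.H271.HTPar.e t
theorem e_ne (t : ℝ) : e t ≠ 0 := Pool.Agent.H271.HTPar.e_ne t
theorem e_cont : Continuous e := Pool.Agent.H271.HTPar.e_cont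

/-- the parametrisation of the boundary of the shadow in polar coordinates -/
theorem par {lam : ℝ} {K : Set V3} (hK : GB lam K) : ∃ (r : ℝ → ℝ) (q : ℝ → V2), Par K q ∧
    (∀ t, 0 < r t) ∧ (∀ t, r (t + 2 * Real.pi) = r t) ∧
    ∀ t, q t = (r t * Real.cos t, r t * Real.sin t) := by
  have hc : IsCompact (P K) := hK.cpt.image continuous_fst
  have hcv := cvxP hK
  have h0 := zeroIP hK
  have hnhds : P K ∈ 𝓝 (0 : V2) := mem_interior_iff_mem_nhds.1 h0
  have habs : Absorbent ℝ (P K) := absorbent_nhds_zero hnhds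
  have hb : Bornology.IsVonNBounded ℝ (P K) := hc.isVonNBounded ℝ
  have hcont : Continuous (gauge (P K)) := continuous_gauge hcv hnhds
  have hpos : ∀ t, 0 < gauge (P K) (e t) := fun t => (gauge_pos habs hb).2 (e_ne t)
  have e2 : ∀ t, e (t + 2 * Real.pi) = e t := fun t => by
    unfold e Pool.Agent.H271.HTPar.e
    rw [Real.cos_add_two_pi, Real.sin_add_two_pi]
  set q : ℝ → V2 := fun t => (gauge (P K) (e t))⁻¹ • e t with hq
  have hq1 : ∀ t, gauge (P K) (q t) = 1 := by
    intro t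
    rw [hq]
    simp only
    rw [gauge_smul_of_nonneg (inv_nonneg.2 (hpos t).le), smul_eq_mul,
      inv_mul_cancel₀ (hpos t).ne']
  refine ⟨fun t => (gauge (P K) (e t))⁻¹, q, ⟨?_, ?_, ?_, ?_, ?_, ?_⟩, fun t => inv_pos.2 (hpos t),
    fun t => ?_, fun t => rfl⟩
  · exact ((hcont.comp e_cont).inv₀ fun t => (hpos t).ne').smul e_cont
  · intro t
    have h1 := (gauge_le_one_iff_mem_closure hcv hnhds).1 (hq1 t).le
    rwa [hc.isClosed.closure_eq] at h1
  · intro t h1
    have h2 := (gauge_lt_one_iff_mem_interior hcv hnhds).2 h1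
    rw [hq1 t] at h2
    exact lt_irrefl _ h2
  · intro t
    simp only [hq, e2]
  · intro s t hst hts
    have h1 : det (q s) (q t) = (gauge (P K) (e s))⁻¹ * (gauge (P K) (e t))⁻¹ *
        Real.sin (t - s) := by
      rw [Real.sin_sub]
      simp only [hq, det, e, Pool.Agent.H271.HTPar.e, Prod.smul_mk, smul_eq_mul]
      ring
    rw [h1]
    have h2 : 0 < Real.sin (t - s) := Real.sin_pos_of_pos_of_lt_pi (by linarith) (by linarith)
    have h3 := hpos s
    have h4 := hpos t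
    positivity
  · intro p hp hp'
    have hp0 : p ≠ 0 := by
      rintro rfl
      exact hp' h0
    obtain ⟨r, t, hr, hpt⟩ := Pool.Agent.H271.HTPar.exists_polar p hp0
    have h1 : gauge (P K) p = 1 := by
      apply le_antisymm
      · exact gauge_le_one_of_mem hp
      · by_contra h2
        exact hp' ((gauge_lt_one_iff_mem_interior hcv hnhds).1 (not_le.1 h2))
    refine ⟨t, ?_⟩
    rw [hpt, gauge_smul_of_nonneg hr.le, smul_eq_mul] at h1
    have h2 : (gauge (P K) (e t))⁻¹ = r := (eq_inv_of_mul_eq_one_left h1).symm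
    simp only [hq]
    rw [h2, hpt]
  · simp only [e2]

theorem good_mono {K : Set V3} {q : ℝ → V2} (s t s' t' : ℝ) (h1 : s ≤ s') (_h2 : s' ≤ t')
    (h3 : t' ≤ t) (h : Good K q s t) : Good K q s' t' := by
  obtain ⟨d, hd⟩ := h
  exact ⟨d, fun u hu1 hu2 z hz => hd u (h1.trans hu1) (hu2.trans h3) z hz⟩

theorem good_per {K : Set V3} {q : ℝ → V2} (hq : Par K q) (s t : ℝ) (h : Good K q s t) :
    Good K q (s - 2 * Real.pi) (t - 2 * Real.pi) := by
  obtain ⟨d, hd⟩ := h
  refine ⟨d, fun u hu1 hu2 z hz => ?_⟩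
  have e1 := hq.per u
  rw [← e1] at hz ⊢
  exact hd _ (by linarith) (by linarith) z hz

theorem good_open {lam : ℝ} {K : Set V3} (hK : GB lam K) {q : ℝ → V2} (hq : Par K q) (a b : ℝ)
    (hab : a ≤ b) (hgood : Good K q a b) : ∃ ε : ℝ, 0 < ε ∧ Good K q (a - ε) (b + ε) := by
  obtain ⟨d, hd⟩ := hgood
  have hU : IsOpen {x : V3 | d ∈ C K x} := by
    have h1 : Continuous fun x : V3 => ((x, d) : V3 × V3) := by fun_prop
    exact (Pool.Agent.H289.HT.cop K).preimage h1
  have hm : Continuous fun y : ℝ × ℝ => ((q y.1, y.2) : V3) :=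
    (hq.cont.comp continuous_fst).prodMk continuous_snd
  have hn : IsOpen {y : ℝ × ℝ | ((q y.1, y.2) : V3) ∉ K ∨ d ∈ C K (q y.1, y.2)} := by
    have h1 : IsOpen {y : ℝ × ℝ | ((q y.1, y.2) : V3) ∉ K} :=
      hK.cpt.isClosed.isOpen_compl.preimage hm
    have h2 : IsOpen {y : ℝ × ℝ | d ∈ C K (q y.1, y.2)} := hU.preimage hm
    exact h1.union h2
  have hsub : Set.Icc a b ×ˢ Set.Icc (-1 : ℝ) 1 ⊆
      {y : ℝ × ℝ | ((q y.1, y.2) : V3) ∉ K ∨ d ∈ C K (q y.1, y.2)} := by
    rintro ⟨t, z⟩ ⟨ht, -⟩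
    by_cases hz : ((q t, z) : V3) ∈ K
    · exact Or.inr (hd t ht.1 ht.2 z hz)
    · exact Or.inl hz
  obtain ⟨u, v, hu, -, hau, hzv, huv⟩ :=
    generalized_tube_lemma isCompact_Icc isCompact_Icc hn hsub
  obtain ⟨e₁, he₁, h₁⟩ := Metric.isOpen_iff.1 hu a (hau ⟨le_rfl, hab⟩)
  obtain ⟨e₂, he₂, h₂⟩ := Metric.isOpen_iff.1 hu b (hau ⟨hab, le_rfl⟩)
  refine ⟨min e₁ e₂ / 2, by positivity, d, fun t ht1 ht2 z hz => ?_⟩
  have hm1 : min e₁ e₂ ≤ e₁ := min_le_left _ _
  have hm2 : min e₁ e₂ ≤ e₂ := min_le_right _ _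
  have hm0 : 0 < min e₁ e₂ := lt_min he₁ he₂
  have htu : t ∈ u := by
    rcases lt_or_ge t a with h | h
    · apply h₁
      rw [Metric.mem_ball, Real.dist_eq, abs_lt]
      constructor <;> linarith
    · rcases le_or_gt t b with h' | h'
      · exact hau ⟨h, h'⟩
      · apply h₂
        rw [Metric.mem_ball, Real.dist_eq, abs_lt]
        constructor <;> linarith
  have hzv' : z ∈ v := hzv (abs_le.1 (hK.ht _ z hz))
  rcases huv (Set.mk_mem_prod htu hzv') with h | h
  · exact absurd hz h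
  · exact h

theorem good_pt {lam : ℝ} {K : Set V3} (hK : GB lam K) {q : ℝ → V2} (hq : Par K q) (t : ℝ)
    (hnf : ¬ Full K (q t)) : Good K q t t := by
  obtain ⟨F, hF⟩ : ∃ F : Set ℝ, ∀ z, z ∈ F ↔ ((q t, z) : V3) ∈ K := ⟨{z | ((q t, z) : V3) ∈ K},
    fun z => Iff.rfl⟩
  have hFc : IsClosed F := by
    have e : F = (fun z : ℝ => ((q t, z) : V3)) ⁻¹' K := by
      ext z
      exact hF z
    rw [e]
    exact hK.cpt.isClosed.preimage (by fun_prop)
  have hFne : F.Nonempty := by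
    obtain ⟨⟨p, z⟩, hx, hxq⟩ := hq.mem t
    refine ⟨z, (hF z).2 ?_⟩
    have : p = q t := hxq
    rw [← this]
    exact hx
  have hle : ∀ z ∈ F, |z| ≤ 1 := fun z hz => hK.ht _ _ ((hF z).1 hz)
  have hbb : BddBelow F := ⟨-1, fun z hz => (abs_le.1 (hle z hz)).1⟩
  have hba : BddAbove F := ⟨1, fun z hz => (abs_le.1 (hle z hz)).2⟩
  have hlo : sInf F ∈ F := hFc.csInf_mem hFne hbb
  have hhi : sSup F ∈ F := hFc.csSup_mem hFne hba
  have hlt : sSup F - sInf F < 2 := by
    have h1 := abs_le.1 (hle _ hlo)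
    have h2 := abs_le.1 (hle _ hhi)
    by_contra hcon
    rw [not_lt] at hcon
    have h3 : sSup F = 1 := by linarith [h1.1, h2.2]
    have h4 : sInf F = -1 := by linarith [h1.1, h2.2]
    exact hnf ⟨(hF 1).1 (h3 ▸ hhi), (hF (-1)).1 (h4 ▸ hlo)⟩
  refine ⟨(-q t, -((sInf F + sSup F) / 2)), fun s hs1 hs2 z hz => ?_⟩
  have hst : s = t := le_antisymm hs2 hs1
  subst hst
  have hzF : z ∈ F := (hF z).2 hz
  have h1 : sInf F ≤ z := csInf_le hbb hzF
  have h2 : z ≤ sSup F := le_csSup hba hzF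
  refine ⟨1, one_pos, ?_⟩
  have e : ((q s, z) : V3) + (1 : ℝ) • ((-q s, -((sInf F + sSup F) / 2)) : V3) =
      ((0, z - (sInf F + sSup F) / 2) : V3) := by
    rw [one_smul, Prod.mk_add_mk, add_neg_cancel, ← sub_eq_add_neg]
  rw [e]
  exact intK hK 0 (-1) (z - (sInf F + sSup F) / 2) 1 (zeroIP hK) hK.S hK.N (by linarith) (by linarith)

/-- if no fibre over the boundary of the shadow is full and there is no closed chain of `N` touching
bad arcs (starting at the angle `t₀`), then `N + 2` directions light the body -/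
theorem reduction {lam : ℝ} {K : Set V3} (hK : GB lam K) {q : ℝ → V2} (hq : Par K q) (N : ℕ)
    (hN : 1 ≤ N) (hfull : ∀ t, ¬ Full K (q t)) (t₀ : ℝ)
    (hno : ¬ ∃ t : ℕ → ℝ, StrictMono t ∧ t 0 = t₀ ∧ (∀ i, t (i + N) = t i + 2 * Real.pi) ∧
      ∀ i, ¬ Good K q (t i) (t (i + 1))) :
    ∃ L : Fin (N + 2) → V3, ∀ x ∈ K, x ∉ interior K → ∃ i, L i ∈ C K x := by
  classical
  obtain ⟨t, ht0, htN, ht⟩ := greedy (2 * Real.pi) Real.two_pi_pos (Good K q) good_mono
    (fun s t hst h => good_open hK hq s t hst h) (fun s => good_pt hK hq s (hfull s)) N hN t₀ hno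
    (fun s t h => good_per hq s t h)
  choose! d hd using fun i (hi : i < N) => (ht i hi).2
  refine ⟨fun i => if (i : ℕ) < N then d i else if (i : ℕ) = N then ((0 : V2), (1 : ℝ))
    else ((0 : V2), (-1 : ℝ)), ?_⟩
  rintro ⟨p, z⟩ hx hxi
  by_cases hp : p ∈ IP K
  · obtain ⟨z₀, hz₀⟩ := fib hK p hp
    rcases lt_trichotomy z z₀ with h | h | h
    · refine ⟨⟨N, by omega⟩, z₀ - z, by linarith, ?_⟩
      have e1 : ((p, z) : V3) + (z₀ - z) • (((0 : V2), (1 : ℝ)) : V3) = (p, z₀) := by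
        ext <;> simp
      simp only [lt_irrefl, if_false, if_true]
      rw [e1]
      exact hz₀
    · exact absurd (h ▸ hz₀) hxi
    · refine ⟨⟨N + 1, by omega⟩, z - z₀, by linarith, ?_⟩
      have e1 : ((p, z) : V3) + (z - z₀) • (((0 : V2), (-1 : ℝ)) : V3) = (p, z₀) := by
        ext <;> simp
      have n1 : ¬ (N + 1 < N) := by omega
      have n2 : ¬ (N + 1 = N) := by omega
      simp only [n1, n2, if_false]
      rw [e1]
      exact hz₀
  · obtain ⟨u, hu⟩ := hq.surj p ⟨(p, z), hx, rfl⟩ hp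
    -- move `u` to the interval
    have hperZ : ∀ (k : ℤ) (s : ℝ), q (s + k * (2 * Real.pi)) = q s := by
      intro k
      induction k using Int.induction_on with
      | zero => intro s; simp
      | succ m ih =>
        intro s
        have e1 : s + ((m : ℤ) + 1 : ℤ) * (2 * Real.pi) = (s + (m : ℤ) * (2 * Real.pi)) + 2 * Real.pi := by
          push_cast; ring
        rw [e1, hq.per, ih]
      | pred m ih =>
        intro s
        have e1 : s + (-(m : ℤ) - 1 : ℤ) * (2 * Real.pi) + 2 * Real.pi =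
            s + (-(m : ℤ) : ℤ) * (2 * Real.pi) := by
          push_cast; ring
        rw [← hq.per, e1, ih]
    obtain ⟨u', hu1, hu2, hqu⟩ : ∃ u' : ℝ, t₀ ≤ u' ∧ u' ≤ t₀ + 2 * Real.pi ∧ q u' = p := by
      have h1 := toIcoMod_mem_Ico Real.two_pi_pos t₀ u
      refine ⟨toIcoMod Real.two_pi_pos t₀ u, h1.1, h1.2.le, ?_⟩
      rw [toIcoMod, sub_eq_add_neg, ← neg_smul, zsmul_eq_mul, hperZ, hu]
    -- find the arc
    obtain ⟨i, hi, h1, h2⟩ : ∃ i, i < N ∧ t i ≤ u' ∧ u' ≤ t (i + 1) := by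
      by_contra hcon
      push Not at hcon
      have h3 : ∀ i, i ≤ N → t i ≤ u' ∧ (0 < i → t i < u' ∨ t i ≤ u') := by
        intro i
        induction i with
        | zero => intro _; exact ⟨by rw [ht0]; exact hu1, fun h => absurd h (lt_irrefl 0)⟩
        | succ i ih =>
          intro hi
          have h4 := hcon i (by omega) (ih (by omega)).1
          exact ⟨h4.le, fun _ => Or.inl h4⟩
      obtain ⟨M, rfl⟩ : ∃ M, N = M + 1 := ⟨N - 1, by omega⟩
      have h5 := hcon M (by omega) (h3 M (by omega)).1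
      rw [htN] at h5
      linarith
    refine ⟨⟨i, by omega⟩, ?_⟩
    simp only [hi, if_true]
    have := hd i hi u' h1 h2 z (by rw [hqu]; exact hx)
    rwa [hqu] at this

end Pool.Agent.H179.HW
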